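import Pool.Agent.H360R2.RG.Stubs

/-! # r-gaps, task LOCS: many small `k`-gaps near every `t0` -/

open Complex Filter Topology Set MeasureTheory

namespace RGap

open SG (hh nn dd dl ord NZ)
open SP (RHs ZZ mu wt Mk Par Eb PS chi qq tt)
open LG (gK gh Zs bk lk fam prs nA yp ae EE Cn QT tm sm sm0 IsQ SF SM)

namespace LocsAux

theorem wt_cont (t0 D : ℝ) : Continuous (wt t0 D) := by
  unfold wt
  fun_prop

theorem wt_nonneg (t0 D t : ℝ) : 0 ≤ wt t0 D t := (Real.exp_pos _).le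

theorem wt_le_one (t0 D t : ℝ) : wt t0 D t ≤ 1 := by
  unfold wt
  rw [Real.exp_le_one_iff]
  apply div_nonpos_of_nonpos_of_nonneg
  · nlinarith [sq_nonneg (t - t0)]
  · positivity

theorem wt_eq (t0 D t : ℝ) : wt t0 D t = Real.exp (-(1 / (2 * D ^ 2)) * (t - t0) ^ 2) := by
  unfold wt
  congr 1
  ring

theorem wt_integrable (t0 D : ℝ) (hD : 0 < D) : Integrable (wt t0 D) := by
  have h := (integrable_exp_neg_mul_sq (b := 1 / (2 * D ^ 2)) (by positivity)).comp_sub_right t0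
  refine h.congr (Filter.Eventually.of_forall fun t => ?_)
  simp only [wt_eq]

theorem wt_total (t0 D : ℝ) (hD : 0 < D) : ∫ t, wt t0 D t = Real.sqrt (2 * Real.pi) * D := by
  have h := integral_gaussian (1 / (2 * D ^ 2))
  have h2 : ∫ t, wt t0 D t = ∫ t : ℝ, Real.exp (-(1 / (2 * D ^ 2)) * (t - t0) ^ 2) :=
    integral_congr_ae (Filter.Eventually.of_forall fun t => wt_eq t0 D t)
  have h3 := integral_sub_right_eq_self (μ := volume)
    (fun t : ℝ => Real.exp (-(1 / (2 * D ^ 2)) * t ^ 2)) t0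
  rw [h2, h3, h]
  have e : Real.pi / (1 / (2 * D ^ 2)) = (2 * Real.pi) * D ^ 2 := by field_simp
  rw [e, Real.sqrt_mul (by positivity), Real.sqrt_sq hD.le]

theorem wt_int (t0 D V1 V2 : ℝ) (hD : 0 < D) (h : V1 ≤ V2) :
    ∫ t in V1..V2, wt t0 D t ≤ Real.sqrt (2 * Real.pi) * D := by
  rw [intervalIntegral.integral_of_le h, ← wt_total t0 D hD]
  exact setIntegral_le_integral (wt_integrable t0 D hD)
    (Filter.Eventually.of_forall fun t => wt_nonneg t0 D t)

theorem sqrt_two_pi_le : Real.sqrt (2 * Real.pi) ≤ 3 := by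
  rw [Real.sqrt_le_left (by norm_num)]
  have := Real.pi_lt_four
  linarith

theorem two_le_sqrt_two_pi : 2 ≤ Real.sqrt (2 * Real.pi) := by
  apply Real.le_sqrt_of_sq_le
  have := Real.pi_gt_three
  linarith

/-- tail of the Gaussian -/
theorem wt_tail (t0 D t M : ℝ) (hD : 0 < D) (hM : 0 ≤ M) (h : M * D ≤ |t - t0|) :
    wt t0 D t ≤ Real.exp (-M ^ 2 / 4) * wt t0 (2 * D) t := by
  unfold wt
  rw [← Real.exp_add, Real.exp_le_exp]
  have h1 : (M * D) ^ 2 ≤ (t - t0) ^ 2 := by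
    rw [← sq_abs (t - t0)]
    exact pow_le_pow_left₀ (by positivity) h 2
  rw [mul_pow] at h1
  have h2 : M ^ 2 ≤ (t - t0) ^ 2 / D ^ 2 := by
    rw [le_div_iff₀ (by positivity)]; exact h1
  have e1 : -(t - t0) ^ 2 / (2 * D ^ 2) = -((t - t0) ^ 2 / D ^ 2) / 2 := by field_simp
  have e2 : -(t - t0) ^ 2 / (2 * (2 * D) ^ 2) = -((t - t0) ^ 2 / D ^ 2) / 8 := by field_simp; ring
  rw [e1, e2]
  linarith [sq_nonneg M]

theorem ZZ_finite (T : ℝ) (hT : 1 ≤ T) : (ZZ T).Finite :=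
  H370.zset_finite H370.good_zeta T (2 * T) hT

theorem Mk_eq (T k t : ℝ) (hT : 1 ≤ T) : Mk T k t = ∑ s ∈ (ZZ_finite T hT).toFinset,
    (mu s : ℝ) * Real.exp (-(s.im - t) ^ 2 / 2) / (1 + (Real.log T * (s.im - t) / k) ^ 2) :=
  finsum_mem_eq_finite_toFinset_sum _ (ZZ_finite T hT)

theorem Mk_cont (T k : ℝ) (hT : 1 ≤ T) : Continuous (fun t => Mk T k t) := by
  have h : (fun t => Mk T k t) = fun t => ∑ s ∈ (ZZ_finite T hT).toFinset,
    (mu s : ℝ) * Real.exp (-(s.im - t) ^ 2 / 2) / (1 + (Real.log T * (s.im - t) / k) ^ 2) := by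
    funext t
    exact Mk_eq T k t hT
  rw [h]
  apply continuous_finsetSum
  intro s _
  apply Continuous.div
  · fun_prop
  · fun_prop
  · intro t
    positivity

theorem Mk_nonneg (T k t : ℝ) (hT : 1 ≤ T) : 0 ≤ Mk T k t := by
  rw [Mk_eq T k t hT]
  apply Finset.sum_nonneg
  intro s _
  positivity

theorem Zs_eq (A c T t : ℝ) (hT : 1 ≤ T) : Zs A c T t = ∑ s ∈ (ZZ_finite T hT).toFinset,
    (mu s : ℝ) * Real.exp (-(s.im - t) ^ 2 / 2) * gK A c (Real.log T * (s.im - t)) :=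
  finsum_mem_eq_finite_toFinset_sum _ (ZZ_finite T hT)

theorem gK_cont (A c : ℝ) : Continuous (gK A c) := by
  unfold gK
  apply intervalIntegral.continuous_parametric_intervalIntegral_of_continuous'
  unfold Function.uncurry
  fun_prop

theorem Zs_cont (A c T : ℝ) (hT : 1 ≤ T) : Continuous (fun t => Zs A c T t) := by
  have h : (fun t => Zs A c T t) = fun t => ∑ s ∈ (ZZ_finite T hT).toFinset,
    (mu s : ℝ) * Real.exp (-(s.im - t) ^ 2 / 2) * gK A c (Real.log T * (s.im - t)) := by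
    funext t
    exact Zs_eq A c T t hT
  rw [h]
  apply continuous_finsetSum
  intro s _
  apply Continuous.mul
  · fun_prop
  · exact (gK_cont A c).comp (by fun_prop)

theorem EES_cont (P : Par) (B0 : ℕ) (r : ℝ) (F s : ℕ → ℝ) (T : ℝ) :
    Continuous (fun t => EES P B0 r F s T t) := by
  unfold EES
  apply continuous_finsetSum
  intro q _
  fun_prop

/-- finiteness of the index set -/
theorem idx_finite (A B : ℝ) : {n : ℕ | 1 ≤ n ∧ |ord n - A| ≤ B}.Finite := by
  refine (Set.finite_Iic (NZ (A + B))).subset ?_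
  rintro n ⟨hn, h⟩
  rw [abs_le] at h
  exact (SG.ord_le_iff hn _).mp (by linarith)

/-- integral of the indicator of an interval -/
theorem ind_int (a b V1 V2 : ℝ) (hab : a ≤ b) (hV : V1 ≤ V2) :
    IntervalIntegrable ((Set.Icc a b).indicator (fun _ => (1 : ℝ))) volume V1 V2 ∧
    ∫ t in V1..V2, (Set.Icc a b).indicator (fun _ => (1 : ℝ)) t ≤ b - a := by
  have hi : Integrable ((Set.Icc a b).indicator (fun _ => (1 : ℝ))) := by
    rw [integrable_indicator_iff measurableSet_Icc]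
    exact integrableOn_const (by simp) (by simp)
  refine ⟨hi.intervalIntegrable, ?_⟩
  rw [intervalIntegral.integral_of_le hV]
  refine (setIntegral_le_integral hi (Filter.Eventually.of_forall fun t => ?_)).trans ?_
  · exact Set.indicator_nonneg (fun _ _ => zero_le_one) t
  · rw [integral_indicator measurableSet_Icc]
    simp [hab]

theorem exists_M (x : ℝ) (hx : 0 < x) : ∃ M : ℝ, 0 ≤ M ∧ Real.exp (-M ^ 2 / 4) ≤ x := by
  refine ⟨4 * max 1 (Real.log (1 / x)), by positivity, ?_⟩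
  have h1 : 1 ≤ max 1 (Real.log (1 / x)) := le_max_left _ _
  have h2 : Real.log (1 / x) ≤ max 1 (Real.log (1 / x)) := le_max_right _ _
  set m := max 1 (Real.log (1 / x))
  have h3 : -(4 * m) ^ 2 / 4 ≤ -Real.log (1 / x) := by nlinarith
  calc Real.exp (-(4 * m) ^ 2 / 4) ≤ Real.exp (-Real.log (1 / x)) := Real.exp_le_exp.mpr h3
    _ = x := by
      rw [one_div, Real.log_inv, neg_neg, Real.exp_log hx]

/-- the pointwise inequality: `E ≤ CE m^{2B0}`, `Z ≤ N + ee * Y`, `N ≤ CN * Y`, `Y ≤ m`, and either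
`N ≤ k` or `1 ≤ b`. -/
theorem pointwise {E Z N Y m ee e CE CN k b : ℝ} {B0 : ℕ} (he : 0 < e) (hee : 0 ≤ ee)
    (hee1 : ee ≤ 1) (hE : 0 ≤ E) (hY : 0 ≤ Y) (hm : 1 ≤ m) (hYm : Y ≤ m) (_hCE : 0 ≤ CE)
    (hCN : 0 ≤ CN) (hk : 0 ≤ k) (hb : 0 ≤ b) (hEm : E ≤ CE * m ^ (2 * B0))
    (hZ : Z ≤ N + ee * Y) (hN : N ≤ CN * Y) (h : N ≤ k ∨ 1 ≤ b) :
    E ^ 2 * (Z - k) ≤ ee * CE ^ 2 * m ^ (4 * B0 + 1) +
      e * ((CN + 1) ^ 2 * CE ^ 4) * m ^ (8 * B0 + 2) + 1 / (4 * e) * b := by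
  have hm0 : 0 < m := by linarith
  have h1 : E ^ 2 ≤ CE ^ 2 * m ^ (4 * B0) := by
    calc E ^ 2 ≤ (CE * m ^ (2 * B0)) ^ 2 := pow_le_pow_left₀ hE hEm 2
      _ = CE ^ 2 * m ^ (4 * B0) := by rw [mul_pow, ← pow_mul]; ring_nf
  have h2 : 0 ≤ e * ((CN + 1) ^ 2 * CE ^ 4) * m ^ (8 * B0 + 2) := by positivity
  have h3 : 0 ≤ 1 / (4 * e) * b := by positivity
  have h4 : 0 ≤ ee * CE ^ 2 * m ^ (4 * B0 + 1) := by positivity
  have h5 : E ^ 2 * Y ≤ CE ^ 2 * m ^ (4 * B0 + 1) := by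
    calc E ^ 2 * Y ≤ (CE ^ 2 * m ^ (4 * B0)) * m := by gcongr
      _ = CE ^ 2 * m ^ (4 * B0 + 1) := by rw [pow_succ]; ring
  rcases h with h | h
  · have h6 : E ^ 2 * (Z - k) ≤ E ^ 2 * (ee * Y) :=
      mul_le_mul_of_nonneg_left (by linarith) (by positivity)
    have h7 : E ^ 2 * (ee * Y) = ee * (E ^ 2 * Y) := by ring
    have h8 : ee * (E ^ 2 * Y) ≤ ee * (CE ^ 2 * m ^ (4 * B0 + 1)) :=
      mul_le_mul_of_nonneg_left h5 hee
    linarith
  · have h6 : Z - k ≤ (CN + 1) * Y := by nlinarith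
    have h7 : E ^ 2 * (Z - k) ≤ (CN + 1) * (CE ^ 2 * m ^ (4 * B0 + 1)) := by
      calc E ^ 2 * (Z - k) ≤ E ^ 2 * ((CN + 1) * Y) :=
            mul_le_mul_of_nonneg_left h6 (by positivity)
        _ = (CN + 1) * (E ^ 2 * Y) := by ring
        _ ≤ (CN + 1) * (CE ^ 2 * m ^ (4 * B0 + 1)) := by gcongr
    set y := (CN + 1) * (CE ^ 2 * m ^ (4 * B0 + 1)) with hy
    have h8 : y ≤ e * y ^ 2 + 1 / (4 * e) := by
      have : 0 ≤ e * (y - 1 / (2 * e)) ^ 2 := by positivity
      have e1 : e * (y - 1 / (2 * e)) ^ 2 = e * y ^ 2 - y + 1 / (4 * e) := by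
        field_simp
        ring
      linarith
    have h9 : e * y ^ 2 = e * ((CN + 1) ^ 2 * CE ^ 4) * m ^ (8 * B0 + 2) := by
      rw [hy]
      have : m ^ (8 * B0 + 2) = (m ^ (4 * B0 + 1)) ^ 2 := by rw [← pow_mul]; ring_nf
      rw [this]
      ring
    have h10 : 1 / (4 * e) ≤ 1 / (4 * e) * b := le_mul_of_one_le_right (by positivity) h
    linarith

theorem arith_low {X W A' SF δ δ' Dl k r0 Q : ℝ} (g1 : W - A' * SF ^ 2 ≤ δ' * Dl)
    (g2 : -(δ' * Dl) ≤ X - A' * (SF * Q)) (g3 : k * SF + 3 * δ ≤ Q) (hA : 2 * Dl ≤ A')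
    (hSF : 0 < SF) (hδ : 0 < δ) (hk : 0 ≤ k) (hδ' : (1 + k) * δ' = 2 * r0) (hr : r0 = SF * δ)
    (hD : 0 < Dl) : 4 * r0 * Dl ≤ X - k * W := by
  have hA0 : 0 < A' := by linarith
  have a1 : A' * (SF * (k * SF + 3 * δ)) ≤ A' * (SF * Q) := by gcongr
  have a2 : k * (W - A' * SF ^ 2) ≤ k * (δ' * Dl) := mul_le_mul_of_nonneg_left g1 hk
  have a3 : 2 * Dl * (SF * (3 * δ)) ≤ A' * (SF * (3 * δ)) :=
    mul_le_mul_of_nonneg_right hA (by positivity)
  have a4 : (1 + k) * δ' * Dl = 2 * r0 * Dl := by rw [hδ']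
  subst hr
  linarith

end LocsAux

open LocsAux in
theorem LOCS_of (h1 : MLIM) (h2 : EESB) (h3 : MKM) (h4 : ZUP) (h5 : NZMK) (h6 : ORDS)
    (h7 : PARC) : LOCS := by
  classical
  intro hRH P B0 hB r hr F q s hs hq hSF k c hk hc hstrict
  -- parameters
  obtain ⟨η, δ, A1, hη, hη0, hδ, hA1, hpar⟩ := h7 P B0 r F q (fun m => -s m) c (k - c) (c / 8)
    (by positivity) (by
      have : LM P B0 r F q (fun m => -s m) c = -LM P B0 r F q s c := by
        unfold LM
        simp only [neg_mul, Finset.sum_neg_distrib, mul_neg]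
      rw [this]
      exact hstrict)
  set c1 : ℝ := c - 2 * η with hc1
  set c2 : ℝ := c - η with hc2
  have hc10 : 0 < c1 := by linarith
  have hc12 : c1 < c2 := by linarith
  have hc20 : 0 < c2 := by linarith
  obtain ⟨CE, TE, hCE, hTE, hE⟩ := h2 hRH P B0 hB r hr F s hs
  obtain ⟨CN, TN, hCN, hTN, hN⟩ := h5 c2 hc20
  obtain ⟨M1, TM1, hM1, hTM1, hMk1⟩ := h3 hRH P.κ P.hκ P.hκ1 (4 * B0 + 1)
  obtain ⟨M2, TM2, hM2, hTM2, hMk2⟩ := h3 hRH P.κ P.hκ P.hκ1 (8 * B0 + 2)
  set r0 := SF B0 F q * δ with hr0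
  have hr00 : 0 < r0 := by positivity
  -- the small parameters
  set ee := min 1 (r0 / (CE ^ 2 * M1)) with hee
  have hee0 : 0 < ee := by rw [hee]; positivity
  have hee1 : ee ≤ 1 := min_le_left _ _
  have hee2 : ee * CE ^ 2 * M1 ≤ r0 := by
    have : ee ≤ r0 / (CE ^ 2 * M1) := min_le_right _ _
    rw [le_div_iff₀ (by positivity)] at this
    linarith
  set e := r0 / ((CN + 1) ^ 2 * CE ^ 4 * M2) with he
  have he0 : 0 < e := by rw [he]; positivity
  have he2 : e * ((CN + 1) ^ 2 * CE ^ 4) * M2 = r0 := by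
    rw [he]; field_simp
  obtain ⟨A0, hA0, hZUP⟩ := h4 c1 c2 ee hc10 hc12 hee0
  set A := max A0 A1 with hA
  have hAA0 : A0 ≤ A := le_max_left _ _
  have hAA1 : A1 ≤ A := le_max_right _ _
  have hApos : 0 < A := lt_of_lt_of_le hA0 hAA0
  obtain ⟨TZ, hTZ, hZ⟩ := hZUP A hAA0
  have hkpos : (1 : ℝ) ≤ k := by exact_mod_cast hk
  set δ' : ℝ := 2 * SF B0 F q * δ / (1 + k) with hδ'
  have hδ'0 : 0 < δ' := by positivity
  have hδ'1 : (1 + k) * δ' = 2 * r0 := by rw [hδ', hr0]; field_simp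
  obtain ⟨TL, hTL, hLim⟩ := h1 hRH P B0 hB r hr F q s hs hq A c1 hApos hc10 δ' hδ'0
  obtain ⟨M, hM0, hMe⟩ := exists_M (2 * e * r0 / 3) (by positivity)
  -- the parameter inequality
  have hp := hpar A c1 hAA1 (by rw [hc1, abs_le]; constructor <;> linarith)
  set Sg : ℝ := 4 * r / Real.pi * ∑ m ∈ Finset.Icc 2 B0, s m * (sm P A c1 m * SM B0 F q m)
    with hSg
  have hneg : 4 * r / Real.pi * ∑ m ∈ Finset.Icc 2 B0, -s m * (sm P A c1 m * SM B0 F q m) =
      -Sg := by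
    rw [hSg]
    simp only [neg_mul, Finset.sum_neg_distrib, mul_neg]
  have hp' : k * SF B0 F q + 3 * δ ≤ c1 * SF B0 F q - Sg := by
    have h := hp
    simp only [hneg] at h
    have : (k - c + 2 * η) * SF B0 F q = k * SF B0 F q - c1 * SF B0 F q := by rw [hc1]; ring
    linarith
  -- largeness of `T`
  obtain ⟨T1, hT1⟩ := (Real.tendsto_log_atTop.eventually_ge_atTop
    (max 2 (Real.pi * c2))).exists_forall_of_atTop
  obtain ⟨T2, hT2⟩ := (Real.isLittleO_log_id_atTop.bound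
    (by norm_num : (0 : ℝ) < 1 / 4)).exists_forall_of_atTop
  refine ⟨η, 2 * e * r0 / (Real.pi * c2), M + 1,
    max (max (max TE TN) (max TM1 TM2)) (max (max TZ TL) (max T1 T2)),
    hη, by have := Real.pi_pos; positivity, by linarith, ?_, ?_⟩
  · exact hTE.trans ((le_max_left _ _).trans ((le_max_left _ _).trans (le_max_left _ _)))
  intro T hT t0 ht0 ht1
  simp only [max_le_iff] at hT
  obtain ⟨⟨⟨eE, eN⟩, eM1, eM2⟩, ⟨eZ, eL⟩, e1, e2⟩ := hT
  have hT10 : 10 ≤ T := hTE.trans eE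
  have hTone : 1 ≤ T := by linarith
  have hTpos : 0 < T := by linarith
  have hLB := hT1 T e1
  simp only [max_le_iff] at hLB
  obtain ⟨hL2, hLρ⟩ := hLB
  set L := Real.log T with hL
  have hL0 : 0 < L := by linarith
  have hLT : 4 * L ≤ T := by
    have := hT2 T e2
    simp only [id, Real.norm_eq_abs] at this
    rw [abs_of_pos hTpos] at this
    have h := le_abs_self (Real.log T)
    rw [← hL] at h this
    linarith
  set Δ := dd P.κ T with hΔ
  have hΔ1 : 1 ≤ Δ := by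
    rw [hΔ]; unfold dd
    exact Real.one_le_rpow hTone (by linarith [P.hκ1])
  have hΔ0 : 0 < Δ := by linarith
  set V1 := T + 2 * L with hV1
  set V2 := 2 * T - 2 * L with hV2
  have hV : V1 ≤ V2 := by rw [hV1, hV2]; linarith
  set w : ℝ → ℝ := wt t0 Δ with hw
  have hw0 : ∀ t, 0 ≤ w t := fun t => wt_nonneg _ _ _
  have hw1 : ∀ t, w t ≤ 1 := fun t => wt_le_one _ _ _
  have hwc : Continuous w := wt_cont _ _
  set E : ℝ → ℝ := fun t => ‖EES P B0 r F s T t‖ with hEd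
  have hEc : Continuous E := (EES_cont P B0 r F s T).norm
  set Z : ℝ → ℝ := fun t => Zs A c1 T t with hZd
  have hZc : Continuous Z := Zs_cont A c1 T hTone
  set Y : ℝ → ℝ := fun t => Mk T 1 t with hYd
  have hYc : Continuous Y := Mk_cont T 1 hTone
  set ρ := Real.pi * c2 / L with hρ
  have hρ0 : 0 < ρ := by have := Real.pi_pos; positivity
  have hρ1 : ρ ≤ 1 := by rw [hρ, div_le_one hL0]; exact hLρ
  -- lower bound
  obtain ⟨l1, l2⟩ := hLim T eL t0 ht0 ht1
  rw [abs_le] at l1 l2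
  have hlow : 4 * r0 * Δ ≤ (∫ t in V1..V2, w t * E t ^ 2 * Z t) -
      k * ∫ t in V1..V2, w t * E t ^ 2 := by
    refine arith_low (A' := Real.sqrt (2 * Real.pi) * Δ) l1.2 l2.1 hp' ?_ hSF hδ (by linarith)
      hδ'1 hr0 hΔ0
    exact mul_le_mul_of_nonneg_right two_le_sqrt_two_pi hΔ0.le
  -- the index set
  have hfin : {n : ℕ | 1 ≤ n ∧ |ord n - t0| ≤ (M + 1) * Δ ∧
      ord (n + k) - ord n ≤ 2 * Real.pi * (c - η) / L}.Finite :=
    (idx_finite t0 ((M + 1) * Δ)).subset (fun n hn => ⟨hn.1, hn.2.1⟩)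
  set N := hfin.toFinset with hNdef
  have hcard : (NSmall k (c - η) T ((M + 1) * Δ) t0 : ℝ) = N.card := by
    unfold NSmall
    rw [← Set.ncard_eq_toFinset_card _ hfin]
  rw [hcard]
  set S : ℝ → ℝ := fun t => ∑ n ∈ N,
    (Set.Icc (ord n - ρ) (ord n + ρ)).indicator (fun _ => (1 : ℝ)) t with hSdef
  have hS0 : ∀ t, 0 ≤ S t := fun t =>
    Finset.sum_nonneg (fun n _ => Set.indicator_nonneg (fun _ _ => zero_le_one) t)
  have hSi : ∀ n, IntervalIntegrable (fun t => (Set.Icc (ord n - ρ)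
      (ord n + ρ)).indicator (fun _ => (1 : ℝ)) t) volume V1 V2 := fun n =>
    (ind_int (ord n - ρ) (ord n + ρ) V1 V2 (by linarith) hV).1
  have iS : IntervalIntegrable S volume V1 V2 := by
    have h1 := IntervalIntegrable.sum N (fun n _ => hSi n)
    have h2 : (∑ n ∈ N, (fun t => (Set.Icc (ord n - ρ)
      (ord n + ρ)).indicator (fun _ => (1 : ℝ)) t)) = S := by
      funext t
      rw [Finset.sum_apply]
    rw [← h2]
    exact h1
  have I4 : ∫ t in V1..V2, S t ≤ N.card * (2 * ρ) := by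
    rw [hSdef, intervalIntegral.integral_finsetSum (fun n _ => hSi n)]
    calc _ ≤ ∑ n ∈ N, (2 * ρ) := by
          apply Finset.sum_le_sum
          intro n _
          refine ((ind_int (ord n - ρ) (ord n + ρ) V1 V2 (by linarith) hV).2).trans ?_
          linarith
      _ = N.card * (2 * ρ) := by rw [Finset.sum_const, nsmul_eq_mul]
  -- pointwise bound
  have hpt : ∀ t ∈ Set.Icc V1 V2, w t * E t ^ 2 * Z t - k * (w t * E t ^ 2) ≤
      ee * CE ^ 2 * (w t * (1 + Y t) ^ (4 * B0 + 1)) +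
      e * ((CN + 1) ^ 2 * CE ^ 4) * (w t * (1 + Y t) ^ (8 * B0 + 2)) +
      1 / (4 * e) * S t + 1 / (4 * e) * Real.exp (-M ^ 2 / 4) * wt t0 (2 * Δ) t := by
    intro t ht
    have htV1 : T + 2 * L ≤ t := ht.1
    have htV2 : t ≤ 2 * T - 2 * L := ht.2
    have hY0 : 0 ≤ Y t := Mk_nonneg T 1 t hTone
    set b1 : ℝ := if NN ρ t ≤ k then 0 else 1 with hb1
    have hb10 : 0 ≤ b1 := by rw [hb1]; split_ifs <;> norm_num
    have hdich : NN ρ t ≤ k ∨ 1 ≤ b1 := by
      by_cases hh : NN ρ t ≤ k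
      · exact Or.inl hh
      · right; rw [hb1, if_neg hh]
    have q1 := hE T eE t htV1 htV2
    have q2 := hN T eN t (by linarith) (by linarith)
    have q3 := hZ T eZ t (by linarith) (by linarith)
    have h1 := pointwise (E := E t) (Z := Z t) (N := NN ρ t) (Y := Y t) (m := 1 + Y t)
      (ee := ee) (e := e) (CE := CE) (CN := CN) (k := k) (b := b1) (B0 := B0) he0 hee0.le hee1
      (norm_nonneg _) hY0 (by linarith) (by linarith) hCE.le hCN.le (by linarith) hb10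
      q1 q3 q2.2 hdich
    have h2 := mul_le_mul_of_nonneg_left h1 (hw0 t)
    have h3 : w t * b1 ≤ S t + Real.exp (-M ^ 2 / 4) * wt t0 (2 * Δ) t := by
      have hE0 : 0 ≤ Real.exp (-M ^ 2 / 4) * wt t0 (2 * Δ) t :=
        mul_nonneg (Real.exp_pos _).le (wt_nonneg _ _ _)
      by_cases hh : NN ρ t ≤ k
      · have : b1 = 0 := by rw [hb1, if_pos hh]
        rw [this, mul_zero]
        linarith [hS0 t]
      · have hb : b1 = 1 := by rw [hb1, if_neg hh]
        rw [hb, mul_one]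
        have hcnt : NZ (t - ρ) + k + 1 ≤ NZ (t + ρ) := by
          unfold NN at hh
          push Not at hh
          have : ((k + NZ (t - ρ) : ℕ) : ℝ) < NZ (t + ρ) := by push_cast; linarith
          have := Nat.cast_lt.1 this
          omega
        obtain ⟨o1, o2, o3⟩ := h6 t ρ k hρ0 hcnt
        set n := NZ (t - ρ) + 1 with hn
        have hon : |ord n - t| ≤ ρ := by rw [abs_le]; constructor <;> linarith
        by_cases hn0 : |ord n - t0| ≤ (M + 1) * Δ
        · have hnN : n ∈ N := by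
            rw [hNdef, Set.Finite.mem_toFinset]
            refine ⟨by omega, hn0, ?_⟩
            refine o3.trans (le_of_eq ?_)
            rw [hρ, hc2]; ring
          have h7 : (1 : ℝ) ≤ S t := by
            have h8 : (Set.Icc (ord n - ρ) (ord n + ρ)).indicator
                (fun _ => (1 : ℝ)) t = 1 := by
              apply Set.indicator_of_mem
              rw [abs_le] at hon
              constructor <;> linarith
            rw [← h8]
            exact Finset.single_le_sum (f := fun n =>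
              (Set.Icc (ord n - ρ) (ord n + ρ)).indicator (fun _ => (1 : ℝ)) t)
              (fun n _ => Set.indicator_nonneg (fun _ _ => zero_le_one) t) hnN
          linarith [hw1 t]
        · push Not at hn0
          have h7 : M * Δ ≤ |t - t0| := by
            have h8 : |ord n - t0| ≤ |ord n - t| + |t - t0| := by
              have := abs_add_le (ord n - t) (t - t0)
              simpa using this
            have h9 : (M + 1) * Δ = M * Δ + Δ := by ring
            rw [h9] at hn0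
            clear_value Δ ρ n
            linarith only [h8, hn0, hon, hρ1, hΔ1]
          have := wt_tail t0 Δ t M hΔ0 hM0 h7
          linarith [hS0 t]
    have h4 : 1 / (4 * e) * (w t * b1) ≤
        1 / (4 * e) * (S t + Real.exp (-M ^ 2 / 4) * wt t0 (2 * Δ) t) :=
      mul_le_mul_of_nonneg_left h3 (by positivity)
    have e3 : w t * E t ^ 2 * Z t - k * (w t * E t ^ 2) = w t * (E t ^ 2 * (Z t - k)) := by ring
    rw [e3]
    refine h2.trans ?_
    have e4 : w t * (ee * CE ^ 2 * (1 + Y t) ^ (4 * B0 + 1) +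
        e * ((CN + 1) ^ 2 * CE ^ 4) * (1 + Y t) ^ (8 * B0 + 2) + 1 / (4 * e) * b1) =
        ee * CE ^ 2 * (w t * (1 + Y t) ^ (4 * B0 + 1)) +
        e * ((CN + 1) ^ 2 * CE ^ 4) * (w t * (1 + Y t) ^ (8 * B0 + 2)) +
        1 / (4 * e) * (w t * b1) := by
      ring
    rw [e4]
    linarith
  -- integrability
  have i1 : IntervalIntegrable (fun t => w t * E t ^ 2 * Z t) volume V1 V2 :=
    ((hwc.mul (hEc.pow 2)).mul hZc).intervalIntegrable _ _
  have i2 : IntervalIntegrable (fun t => w t * E t ^ 2) volume V1 V2 :=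
    (hwc.mul (hEc.pow 2)).intervalIntegrable _ _
  have i3 : IntervalIntegrable (fun t => w t * (1 + Y t) ^ (4 * B0 + 1)) volume V1 V2 :=
    (hwc.mul ((continuous_const.add hYc).pow _)).intervalIntegrable _ _
  have i4 : IntervalIntegrable (fun t => w t * (1 + Y t) ^ (8 * B0 + 2)) volume V1 V2 :=
    (hwc.mul ((continuous_const.add hYc).pow _)).intervalIntegrable _ _
  have i5 : IntervalIntegrable (fun t => wt t0 (2 * Δ) t) volume V1 V2 :=
    (wt_cont _ _).intervalIntegrable _ _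
  have I3 : ∫ t in V1..V2, w t * (1 + Y t) ^ (4 * B0 + 1) ≤ M1 * Δ := hMk1 T eM1 t0
  have I3' : ∫ t in V1..V2, w t * (1 + Y t) ^ (8 * B0 + 2) ≤ M2 * Δ := hMk2 T eM2 t0
  have I5 : ∫ t in V1..V2, wt t0 (2 * Δ) t ≤ 6 * Δ := by
    have h1 := wt_int t0 (2 * Δ) V1 V2 (by positivity) hV
    have h2 : Real.sqrt (2 * Real.pi) * (2 * Δ) ≤ 3 * (2 * Δ) :=
      mul_le_mul_of_nonneg_right sqrt_two_pi_le (by positivity)
    linarith
  have hint := intervalIntegral.integral_mono_on hV (i1.sub (i2.const_mul (k : ℝ)))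
    ((((i3.const_mul (ee * CE ^ 2)).add (i4.const_mul (e * ((CN + 1) ^ 2 * CE ^ 4)))).add
      (iS.const_mul (1 / (4 * e)))).add
      (i5.const_mul (1 / (4 * e) * Real.exp (-M ^ 2 / 4)))) hpt
  rw [intervalIntegral.integral_sub i1 (i2.const_mul (k : ℝ)),
    intervalIntegral.integral_add
    (((i3.const_mul (ee * CE ^ 2)).add (i4.const_mul (e * ((CN + 1) ^ 2 * CE ^ 4)))).add
      (iS.const_mul (1 / (4 * e))))
      (i5.const_mul (1 / (4 * e) * Real.exp (-M ^ 2 / 4))),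
    intervalIntegral.integral_add
    ((i3.const_mul (ee * CE ^ 2)).add (i4.const_mul (e * ((CN + 1) ^ 2 * CE ^ 4))))
      (iS.const_mul (1 / (4 * e))),
    intervalIntegral.integral_add (i3.const_mul (ee * CE ^ 2))
      (i4.const_mul (e * ((CN + 1) ^ 2 * CE ^ 4))),
    intervalIntegral.integral_const_mul, intervalIntegral.integral_const_mul,
    intervalIntegral.integral_const_mul, intervalIntegral.integral_const_mul,
    intervalIntegral.integral_const_mul] at hint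
  -- arithmetic
  have J1 := mul_le_mul_of_nonneg_left I3 (by positivity : 0 ≤ ee * CE ^ 2)
  have J2 := mul_le_mul_of_nonneg_left I3' (by positivity : 0 ≤ e * ((CN + 1) ^ 2 * CE ^ 4))
  have J4 := mul_le_mul_of_nonneg_left I4 (by positivity : 0 ≤ 1 / (4 * e))
  have J5 := mul_le_mul_of_nonneg_left I5
    (by positivity : 0 ≤ 1 / (4 * e) * Real.exp (-M ^ 2 / 4))
  have K1 : ee * CE ^ 2 * (M1 * Δ) ≤ r0 * Δ := by
    calc ee * CE ^ 2 * (M1 * Δ) = (ee * CE ^ 2 * M1) * Δ := by ring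
      _ ≤ r0 * Δ := by gcongr
  have K2 : e * ((CN + 1) ^ 2 * CE ^ 4) * (M2 * Δ) = r0 * Δ := by
    rw [← he2]; ring
  have K5 : 1 / (4 * e) * Real.exp (-M ^ 2 / 4) * (6 * Δ) ≤ r0 * Δ := by
    calc 1 / (4 * e) * Real.exp (-M ^ 2 / 4) * (6 * Δ) ≤
        1 / (4 * e) * (2 * e * r0 / 3) * (6 * Δ) := by gcongr
      _ = r0 * Δ := by field_simp; ring
  have K : r0 * Δ ≤ 1 / (4 * e) * (N.card * (2 * ρ)) := by linarith
  have e5 : 1 / (4 * e) * (N.card * (2 * ρ)) = N.card * (Real.pi * c2) / (2 * e * L) := by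
    rw [hρ]
    field_simp
    ring
  rw [e5, le_div_iff₀ (by positivity)] at K
  have hpc : 0 < Real.pi * c2 := by have := Real.pi_pos; positivity
  have e6 : 2 * e * r0 / (Real.pi * c2) * Δ * L = (r0 * Δ * (2 * e * L)) / (Real.pi * c2) := by
    field_simp
  rw [e6, div_le_iff₀ hpc]
  exact K

end RGap
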